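import Pool.Agent.W2helper39.SP.Defs
import Pool.Agent.W2helper39.BR.Inf

/-!
Linear differential equations under the inversion.
-/

set_option autoImplicit false

namespace Pool.Agent.W2helper39.SP

open Filter Topology Pool.Agent.W603.BP Pool.Agent.TH143
open Pool.Agent.W2helper39.BR (OdeAt OdeInf)

/-- the coefficients of the change of variable -/
noncomputable def dd : ℕ → ℕ → Polynomial ℂ
  | 0, i => if i = 0 then 1 else 0
  | j + 1, i => -Polynomial.X ^ 2 * (Polynomial.derivative (dd j i) +
      if i = 0 then 0 else dd j (i - 1))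

theorem dd_gt (j : ℕ) : ∀ i, j < i → dd j i = 0 := by
  induction j with
  | zero =>
    intro i hi
    rw [dd, if_neg (by omega)]
  | succ j ih =>
    intro i hi
    rw [dd, ih i (by omega), if_neg (by omega), ih (i - 1) (by omega)]
    simp

theorem dd_diag (j : ℕ) : dd j j = (-Polynomial.X ^ 2) ^ j := by
  induction j with
  | zero => rw [dd, if_pos rfl, pow_zero]
  | succ j ih =>
    rw [dd, dd_gt j (j + 1) (by omega), if_neg (by omega), Nat.add_sub_cancel, ih]
    simp only [map_zero, zero_add]
    rw [pow_succ]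
    ring

theorem inv_iter {g : ℂ → ℂ} (hg : Differentiable ℂ g) (j : ℕ) : ∀ w : ℂ, w ≠ 0 →
    iteratedDeriv j g w⁻¹ =
      ∑ i ∈ Finset.range (j + 1), (dd j i).eval w * iteratedDeriv i (fun w => g w⁻¹) w := by
  have hh : AnalyticOnNhd ℂ (fun w => g w⁻¹) {0}ᶜ := fun w hw =>
    (hg.analyticAt _).fun_comp (analyticAt_inv hw)
  induction j with
  | zero =>
    intro w hw
    simp [dd]
  | succ j ih =>
    intro w hw
    have h1 : HasDerivAt (fun w => iteratedDeriv j g w⁻¹)
        (iteratedDeriv (j + 1) g w⁻¹ * -(w ^ 2)⁻¹) w :=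
      (hasDerivAt_iter (S := Set.univ) (fun z _ => hg.analyticAt z) j (Set.mem_univ w⁻¹)).comp w
        (hasDerivAt_inv hw)
    have h2 : HasDerivAt (fun w => ∑ i ∈ Finset.range (j + 1), (dd j i).eval w *
        iteratedDeriv i (fun w => g w⁻¹) w)
        (∑ i ∈ Finset.range (j + 1), ((Polynomial.derivative (dd j i)).eval w *
          iteratedDeriv i (fun w => g w⁻¹) w + (dd j i).eval w *
          iteratedDeriv (i + 1) (fun w => g w⁻¹) w)) w := by
      apply HasDerivAt.fun_sum
      intro i _
      exact ((dd j i).hasDerivAt w).mul (hasDerivAt_iter hh i hw)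
    have h3 : (fun w => iteratedDeriv j g w⁻¹) =ᶠ[𝓝 w] fun w =>
        ∑ i ∈ Finset.range (j + 1), (dd j i).eval w * iteratedDeriv i (fun w => g w⁻¹) w := by
      filter_upwards [isOpen_ne.mem_nhds hw] with x hx
      exact ih x hx
    have h4 := (h1.congr_of_eventuallyEq h3.symm).unique h2
    have h5 : iteratedDeriv (j + 1) g w⁻¹ = -w ^ 2 * ∑ i ∈ Finset.range (j + 1),
        ((Polynomial.derivative (dd j i)).eval w * iteratedDeriv i (fun w => g w⁻¹) w +
          (dd j i).eval w * iteratedDeriv (i + 1) (fun w => g w⁻¹) w) := by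
      rw [← h4]
      field_simp
    rw [h5, Finset.sum_add_distrib, mul_add]
    have h6 : ∑ i ∈ Finset.range (j + 1 + 1), (dd (j + 1) i).eval w *
        iteratedDeriv i (fun w => g w⁻¹) w =
        -w ^ 2 * ∑ i ∈ Finset.range (j + 1 + 1), (Polynomial.derivative (dd j i)).eval w *
          iteratedDeriv i (fun w => g w⁻¹) w +
        -w ^ 2 * ∑ i ∈ Finset.range (j + 1 + 1),
          (if i = 0 then (0 : Polynomial ℂ) else dd j (i - 1)).eval w *
          iteratedDeriv i (fun w => g w⁻¹) w := by
      rw [← mul_add, ← Finset.sum_add_distrib, Finset.mul_sum]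
      refine Finset.sum_congr rfl fun i _ => ?_
      rw [dd]
      simp only [Polynomial.eval_mul, Polynomial.eval_neg, Polynomial.eval_pow, Polynomial.eval_X,
        Polynomial.eval_add]
      ring
    rw [h6]
    congr 1
    · rw [Finset.sum_range_succ _ (j + 1), dd_gt j (j + 1) (by omega)]
      simp
    · rw [Finset.sum_range_succ' _ (j + 1)]
      simp

/-- Linear differential equations at infinity are transformed to equations of the same order. -/
theorem odeInf_inv {m : ℕ} {g : ℂ → ℂ} (hg : Differentiable ℂ g) (h : OdeInf m g) :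
    OdeAt m fun w => g w⁻¹ := by
  classical
  obtain ⟨a, ha, ⟨k0, hk0, hn⟩, h⟩ := h
  have hpol : ∀ p : Polynomial ℂ, MeromorphicAt (fun w : ℂ => p.eval w) 0 := fun p =>
    (Polynomial.differentiable p).analyticAt 0 |>.meromorphicAt
  refine ⟨fun i w => ∑ k ∈ Finset.range (m + 1), a k w⁻¹ * (dd k i).eval w, fun i => ?_, ?_, ?_⟩
  · apply MeromorphicAt.fun_sum
    intro k _
    exact (ha k).fun_mul (hpol _)
  · let T := (Finset.range (m + 1)).filter fun k => Nz fun w => a k w⁻¹
    have hT : T.Nonempty :=
      ⟨k0, Finset.mem_filter.mpr ⟨Finset.mem_range.mpr (Nat.lt_succ_of_le hk0), hn⟩⟩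
    set l := T.max' hT with hl
    have hlT : l ∈ T := T.max'_mem hT
    have hlm : l ≤ m := Nat.lt_succ_iff.mp (Finset.mem_range.mp (Finset.mem_filter.mp hlT).1)
    have hlN : Nz fun w => a l w⁻¹ := (Finset.mem_filter.mp hlT).2
    have hbig' : ∀ᶠ w in 𝓝[≠] (0 : ℂ), ∀ k ∈ Finset.range (m + 1), l < k → a k w⁻¹ = 0 := by
      rw [Filter.eventually_all_finset]
      intro k hk
      by_cases hlk : l < k
      · have : ∀ᶠ w in 𝓝[≠] (0 : ℂ), a k w⁻¹ = 0 := by
          by_contra hcon
          have : k ∈ T := Finset.mem_filter.mpr ⟨hk, hcon⟩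
          exact absurd (T.le_max' k this) (not_le.mpr hlk)
        filter_upwards [this] with w hw _
        exact hw
      · exact Eventually.of_forall fun w h => absurd h hlk
    refine ⟨l, hlm, fun h0 => hlN ?_⟩
    filter_upwards [h0, hbig', self_mem_nhdsWithin] with w h1 h2 h3
    rw [Finset.sum_eq_single l] at h1
    · rw [dd_diag] at h1
      refine (mul_eq_zero.mp h1).resolve_right ?_
      simp only [Polynomial.eval_pow, Polynomial.eval_neg, Polynomial.eval_X]
      exact pow_ne_zero _ (neg_ne_zero.mpr (pow_ne_zero _ h3))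
    · intro k hk hkl
      rcases lt_or_gt_of_ne hkl with h4 | h4
      · rw [dd_gt k l h4, Polynomial.eval_zero, mul_zero]
      · rw [h2 k hk h4, zero_mul]
    · intro h4
      exact absurd (Finset.mem_range.mpr (by omega)) h4
  · filter_upwards [h, self_mem_nhdsWithin] with w h1 h2
    rw [← h1]
    simp only [Finset.sum_mul]
    rw [Finset.sum_comm]
    refine Finset.sum_congr rfl fun k hk => ?_
    have hk' : k + 1 ≤ m + 1 := by
      have := Finset.mem_range.mp hk
      omega
    rw [inv_iter hg k w h2, Finset.mul_sum]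
    rw [← Finset.sum_subset (Finset.range_mono hk') (by
      intro i _ hi
      rw [dd_gt k i (by
        rw [Finset.mem_range] at hi
        omega), Polynomial.eval_zero]
      ring)]
    refine Finset.sum_congr rfl fun i _ => ?_
    ring

end Pool.Agent.W2helper39.SP
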