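import Pool.Agent.W2helper39.SB.Loc
import Pool.Agent.W2helper39.BR.Dom

/-!
Curves of the multiplicative group through the points of a curve on a punctured disc whose
homogeneous coordinates are sums of functions without zeros.
-/

set_option autoImplicit false

namespace Pool.Agent.W2helper39.SP

open Filter Topology Pool.Agent.W603.BP Pool.Agent.W2helper39.SB

/-- **The local theorem**, the coordinates may have common zeros. -/
theorem loc_main2 {n m : ℕ} (f : ℂ → Fin (n + 1) → ℂ)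
    (hf : ∀ j, AnalyticOnNhd ℂ (fun w => f w j) (PB 1))
    (t : Fin (n + 1) → Fin m → ℂ → ℂ) (ht : ∀ c j, ZU (t c j))
    (hft : ∀ᶠ w in 𝓝[≠] (0 : ℂ), ∀ c, f w c = ∑ j, t c j w)
    (hess : ∃ j k, Nz (fun w => f w k) ∧ ¬ MRel (fun w => f w j) (fun w => f w k)) :
    ∃ (b : Fin (n + 1) → Fin m → ℕ) (Y : ℂ → ℂ), Un Y ∧
      ∀ W : Fin (n + 1) → ℂ → Polynomial ℂ,
        (∀ c w, W c w = ∑ j, Polynomial.C (Y w * t c j w) * Polynomial.X ^ b c j) →
        (∀ᶠ w in 𝓝[≠] (0 : ℂ), ∀ c, (W c w).eval 1 = Y w * f w c) ∧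
        (∀ G : MvPolynomial (Fin (n + 1)) ℂ,
          (∀ᶠ w in 𝓝[≠] (0 : ℂ), MvPolynomial.aeval (fun c => (W c w).eval 1) G = 0) →
          ∀ᶠ w in 𝓝[≠] (0 : ℂ), MvPolynomial.aeval (fun c => W c w) G = 0) ∧
        (∀ (k : ℕ) (E : Fin k → MvPolynomial (Fin (n + 1)) ℂ),
          (∀ᶠ w in 𝓝[≠] (0 : ℂ), ∃ j,
            MvPolynomial.aeval (fun c => (W c w).eval 1) (E j) ≠ 0) →
          ∃ δ : ℂ → ℂ, Pun δ ∧ Nz δ ∧ ∀ᶠ w in 𝓝[≠] (0 : ℂ), δ w ≠ 0 → ∀ τ : ℂ, τ ≠ 0 →
            ∃ j, (MvPolynomial.aeval (fun c => W c w) (E j)).eval τ ≠ 0) ∧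
        ∃ (c1 c0 : Fin (n + 1)) (δ : ℂ → ℂ), Pun δ ∧ Nz δ ∧ ∀ᶠ w in 𝓝[≠] (0 : ℂ), δ w ≠ 0 →
          W c1 w * Polynomial.C ((W c0 w).eval 1) ≠ W c0 w * Polynomial.C ((W c1 w).eval 1) := by
  classical
  -- the units
  let e : Fin (n + 1) × Fin m ≃ Fin ((n + 1) * m) := finProdFinEquiv
  let u : Fin ((n + 1) * m) → ℂ → ℂ := fun p =>
    if Nz (t (e.symm p).1 (e.symm p).2) then t (e.symm p).1 (e.symm p).2 else fun _ => 1
  have hu1 : ∀ c j, Nz (t c j) → u (e (c, j)) = t c j := by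
    intro c j h
    simp only [u, Equiv.symm_apply_apply]
    exact if_pos h
  have hu : ∀ p, Un (u p) := by
    intro p
    by_cases h : Nz (t (e.symm p).1 (e.symm p).2)
    · have h1 : u p = t (e.symm p).1 (e.symm p).2 := if_pos h
      rw [h1]
      exact (ht _ _).un h
    · have h1 : u p = fun _ => 1 := if_neg h
      rw [h1]
      exact Un.one
  -- the coordinates whose quotient is not meromorphic
  obtain ⟨c1, c0, hc1, hc0, hc10⟩ : ∃ j k, Nz (fun w => f w j) ∧ Nz (fun w => f w k) ∧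
      ¬ MRel (fun w => f w j) (fun w => f w k) := by
    obtain ⟨j, k, h1, h2⟩ := hess
    refine ⟨j, k, fun h3 => h2 (zero_mrel h3), h1, h2⟩
  have hsum : ∀ c, ∀ᶠ w in 𝓝[≠] (0 : ℂ), f w c = ∑ j, t c j w := fun c => by
    filter_upwards [hft] with w hw
    exact hw c
  have hlat : ∃ p q, ¬ MRel (u p) (u q) := by
    by_contra hcon
    push Not at hcon
    apply hc10
    obtain ⟨j0, -, hj0⟩ := exists_nz_term Finset.univ (t := t c1) (fun h0 => hc1 (by
      filter_upwards [h0, hsum c1] with w h1 h2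
      rw [h2, h1]))
    have hall : ∀ c j, MRel (t c j) (u (e (c1, j0))) := by
      intro c j
      by_cases h : Nz (t c j)
      · rw [← hu1 c j h]
        exact hcon _ _
      · exact zero_mrel (not_not.mp h)
    obtain ⟨ρ, hρ, h1⟩ := sum_mul Finset.univ (t c1) _ fun j _ => hall c1 j
    obtain ⟨σ, hσ, h2⟩ := sum_mul Finset.univ (t c0) _ fun j _ => hall c0 j
    refine mrel_of (v := u (e (c1, j0))) hρ hσ ?_ ?_ hc0
    · filter_upwards [h1, hsum c1] with w h3 h4
      rw [h4, h3]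
    · filter_upwards [h2, hsum c0] with w h3 h4
      rw [h4, h3]
  obtain ⟨s, U, V, b, κ, h, hU, hV, hh, hrep, hsep, hind⟩ := exists_lattice u hu hlat
  have hdat : Dat U V := ⟨hU, hV, hind⟩
  -- nonnegative exponents
  obtain ⟨B, hB⟩ : ∃ B : ℕ, ∀ p, 0 ≤ b p + B := by
    refine ⟨∑ p, (b p).natAbs, fun p => ?_⟩
    have h1 : (b p).natAbs ≤ ∑ p, (b p).natAbs :=
      Finset.single_le_sum (f := fun p => (b p).natAbs) (fun _ _ => Nat.zero_le _)
        (Finset.mem_univ p)
    omega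
  obtain ⟨K, hK⟩ : ∃ K : ℕ, ∀ p k, 0 ≤ κ p k + K := by
    refine ⟨∑ p, ∑ k, (κ p k).natAbs, fun p k => ?_⟩
    have h1 : (κ p k).natAbs ≤ ∑ k, (κ p k).natAbs :=
      Finset.single_le_sum (f := fun k => (κ p k).natAbs) (fun _ _ => Nat.zero_le _)
        (Finset.mem_univ k)
    have h2 : ∑ k, (κ p k).natAbs ≤ ∑ p, ∑ k, (κ p k).natAbs :=
      Finset.single_le_sum (f := fun p => ∑ k, (κ p k).natAbs) (fun _ _ => Nat.zero_le _)
        (Finset.mem_univ p)
    omega
  let β : Fin ((n + 1) * m) → ℕ := fun p => (b p + B).toNat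
  let ν : Fin ((n + 1) * m) → Fin s → ℕ := fun p k => (κ p k + K).toNat
  have hβ : ∀ p, (β p : ℤ) = b p + B := fun p => Int.toNat_of_nonneg (hB p)
  have hν : ∀ p k, (ν p k : ℤ) = κ p k + K := fun p k => Int.toNat_of_nonneg (hK p k)
  let Y : ℂ → ℂ := fun w => U w ^ B * ∏ k, V k w ^ K
  have hY : Un Y := (hU.pow _).mul (Un.prod Finset.univ fun k _ => (hV k).pow _)
  have hVev : ∀ᶠ w in 𝓝[≠] (0 : ℂ), ∀ k, V k w ≠ 0 := by
    rw [Filter.eventually_all]
    exact fun k => (hV k).2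
  have hrep' : ∀ p, ∀ᶠ w in 𝓝[≠] (0 : ℂ),
      h p w * (∏ k, V k w ^ ν p k) * U w ^ β p = Y w * u p w := by
    intro p
    filter_upwards [hrep p, hU.2, hVev] with w h1 h2 h3
    rw [h1]
    simp only [Y]
    have e1 : U w ^ β p = U w ^ b p * U w ^ B := by
      rw [← zpow_natCast, hβ, zpow_add₀ h2, zpow_natCast]
    have e2 : ∏ k, V k w ^ ν p k = (∏ k, V k w ^ κ p k) * ∏ k, V k w ^ K := by
      rw [← Finset.prod_mul_distrib]
      exact Finset.prod_congr rfl fun k _ => by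
        rw [← zpow_natCast, hν, zpow_add₀ (h3 k), zpow_natCast]
    rw [e1, e2]
    ring
  refine ⟨fun c j => β (e (c, j)), Y, hY, fun W hW => ?_⟩
  -- the polynomials
  let hm : Fin ((n + 1) * m) → MG := fun p => ⟨gm (h p), h p, hh p, rfl⟩
  let F : Fin (n + 1) → Polynomial (AA s) := fun c => ∑ j, if Nz (t c j) then
    Polynomial.C (MvPolynomial.monomial (Finsupp.equivFunOnFinite.symm (ν (e (c, j))))
      (hm (e (c, j)))) * Polynomial.X ^ β (e (c, j)) else 0
  have hF : ∀ c, Th U V (F c) = gp (W c) := by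
    intro c
    have h1 : W c = ∑ j, fun w =>
        Polynomial.C (Y w * t c j w) * Polynomial.X ^ β (e (c, j)) := by
      funext w
      rw [hW, Finset.sum_apply]
    rw [h1, map_sum, map_sum]
    refine Finset.sum_congr rfl fun j _ => ?_
    by_cases hj : Nz (t c j)
    · rw [if_pos hj, map_mul, map_pow, Th_C, Th_X]
      have h2 : EvA V (MvPolynomial.monomial (Finsupp.equivFunOnFinite.symm (ν (e (c, j))))
          (hm (e (c, j)))) = gm fun w => h (e (c, j)) w * ∏ k, V k w ^ ν (e (c, j)) k := by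
        unfold EvA
        rw [MvPolynomial.coe_eval₂Hom, MvPolynomial.eval₂_monomial, gm_mul]
        congr 1
        have h3 : (fun w => ∏ k, V k w ^ ν (e (c, j)) k) = ∏ k, V k ^ ν (e (c, j)) k := by
          funext w
          simp
        rw [h3, map_prod, Finsupp.prod_fintype _ _ (fun _ => pow_zero _)]
        refine Finset.prod_congr rfl fun k _ => ?_
        rw [map_pow]
        rfl
      rw [h2, mapC_gm, ← map_pow, ← map_mul, gp_eq]
      filter_upwards [hrep' (e (c, j))] with w h3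
      simp only [Pi.mul_apply, Pi.pow_apply]
      rw [mul_pow, ← mul_assoc, ← Polynomial.C_pow, ← Polynomial.C_mul, h3, hu1 c j hj]
    · rw [if_neg hj, map_zero, ← map_zero gp, gp_eq]
      have hj' : ∀ᶠ w in 𝓝[≠] (0 : ℂ), t c j w = 0 := not_not.mp hj
      filter_upwards [hj'] with w h3
      rw [h3, mul_zero, Polynomial.C_0, zero_mul]
      rfl
  have hW1 : ∀ᶠ w in 𝓝[≠] (0 : ℂ), ∀ c, (W c w).eval 1 = Y w * f w c := by
    filter_upwards [hft] with w h1 c
    rw [hW, Polynomial.eval_finsetSum, h1, Finset.mul_sum]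
    exact Finset.sum_congr rfl fun j _ => by simp
  refine ⟨hW1, fun G hG => hdat.rel hF G hG, fun k E hE => hdat.avoid hF E hE, c1, c0, ?_⟩
  -- the coefficients
  have hcoef : ∀ c w i, (W c w).coeff i =
      ∑ j ∈ Finset.univ.filter (fun j => β (e (c, j)) = i), Y w * t c j w := by
    intro c w i
    rw [hW, Polynomial.finsetSum_coeff, Finset.sum_filter]
    refine Finset.sum_congr rfl fun j _ => ?_
    rw [Polynomial.coeff_C_mul, Polynomial.coeff_X_pow]
    by_cases h1 : β (e (c, j)) = i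
    · rw [if_pos h1, if_pos h1.symm, mul_one]
    · rw [if_neg h1, if_neg (Ne.symm h1), mul_zero]
  have hPf : ∀ c, Pun (fun w => f w c) := fun c => on_pun one_pos (hf c)
  have hPc : ∀ c i, Pun (fun w => (W c w).coeff i) := by
    intro c i
    have h1 : (fun w => (W c w).coeff i) = fun w =>
        ∑ j ∈ Finset.univ.filter (fun j => β (e (c, j)) = i), Y w * t c j w :=
      funext fun w => hcoef c w i
    rw [h1]
    exact Pun.sum _ fun j _ => hY.1.mul (ht c j).1
  let δ : ℕ → ℂ → ℂ := fun i w =>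
    (W c1 w).coeff i * (Y w * f w c0) - (W c0 w).coeff i * (Y w * f w c1)
  have hδP : ∀ i, Pun (δ i) := by
    intro i
    filter_upwards [(hPc c1 i).mul (hY.1.mul (hPf c0)), (hPc c0 i).mul (hY.1.mul (hPf c1))]
      with w h1 h2
    exact h1.fun_sub h2
  by_cases hex : ∃ i, Nz (δ i)
  · obtain ⟨i, hi⟩ := hex
    refine ⟨δ i, hδP i, hi, ?_⟩
    filter_upwards [hW1] with w h1 h2 h3
    apply h2
    have h4 := congrArg (fun p => p.coeff i) h3
    simp only [Polynomial.coeff_mul_C] at h4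
    rw [h1, h1] at h4
    exact sub_eq_zero.mpr h4
  exfalso
  have hex' : ∀ i, ∀ᶠ w in 𝓝[≠] (0 : ℂ), δ i w = 0 := fun i => by
    by_contra h1
    exact hex ⟨i, h1⟩
  -- a coefficient
  obtain ⟨i, hi⟩ : ∃ i, Nz fun w => (W c1 w).coeff i := by
    by_contra hcon
    apply hc1
    have h1 : ∀ i, ∀ᶠ w in 𝓝[≠] (0 : ℂ), (W c1 w).coeff i = 0 := fun i => by
      by_contra h1
      exact hcon ⟨i, h1⟩
    have h2 : ∀ᶠ w in 𝓝[≠] (0 : ℂ), ∀ i ∈ Finset.univ.image (fun j => β (e (c1, j))),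
        (W c1 w).coeff i = 0 := (Filter.eventually_all_finset _).mpr fun i _ => h1 i
    filter_upwards [h2, hW1, hY.2] with w h3 h4 h5
    have h6 : W c1 w = 0 := by
      ext i
      rw [Polynomial.coeff_zero]
      by_cases hi : i ∈ Finset.univ.image (fun j => β (e (c1, j)))
      · exact h3 i hi
      · rw [hcoef]
        apply Finset.sum_eq_zero
        intro j hj
        exact absurd (Finset.mem_image.mpr ⟨j, Finset.mem_univ _, (Finset.mem_filter.mp hj).2⟩) hi
    have h7 := h4 c1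
    rw [h6, Polynomial.eval_zero] at h7
    exact (mul_eq_zero.mp h7.symm).resolve_left h5
  have hi0 : Nz fun w => (W c0 w).coeff i := by
    intro h0
    have h1 : Nz fun w => (W c1 w).coeff i * (Y w * f w c0) :=
      Nz.mul (hPc c1 i) (hY.1.mul (hPf c0)) hi (Nz.mul hY.1 (hPf c0) hY.nz hc0)
    apply h1
    filter_upwards [h0, hex' i] with w h2 h3
    have h4 : (W c1 w).coeff i * (Y w * f w c0) - (W c0 w).coeff i * (Y w * f w c1) = 0 := h3
    rw [h2, zero_mul, sub_zero] at h4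
    exact h4
  obtain ⟨j0, hj0, hj0n⟩ := exists_nz_term (Finset.univ.filter (fun j => β (e (c1, j)) = i))
    (t := fun j w => Y w * t c1 j w) (fun h0 => hi (by
      filter_upwards [h0] with w h1
      rw [hcoef]
      exact h1))
  have hj0t : Nz (t c1 j0) := by
    intro h0
    apply hj0n
    filter_upwards [h0] with w h1
    rw [h1, mul_zero]
  have hall : ∀ c, ∀ j ∈ Finset.univ.filter (fun j => β (e (c, j)) = i),
      MRel (fun w => Y w * t c j w) (fun w => Y w * t c1 j0 w) := by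
    intro c j hj
    by_cases h1 : Nz (t c j)
    · have h2 : b (e (c, j)) = b (e (c1, j0)) := by
        have h3 := hβ (e (c, j))
        have h4 := hβ (e (c1, j0))
        have h5 := (Finset.mem_filter.mp hj).2
        have h6 := (Finset.mem_filter.mp hj0).2
        rw [h5] at h3
        rw [h6] at h4
        omega
      obtain ⟨ρ, hρ, h3⟩ := hsep _ _ h2
      rw [hu1 c j h1, hu1 c1 j0 hj0t] at h3
      refine ⟨ρ, hρ, ?_⟩
      filter_upwards [h3] with w h4
      rw [h4]
      ring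
    · apply zero_mrel
      have h2 : ∀ᶠ w in 𝓝[≠] (0 : ℂ), t c j w = 0 := not_not.mp h1
      filter_upwards [h2] with w h3
      rw [h3, mul_zero]
  obtain ⟨ρ, hρ, h1⟩ := sum_mul _ (fun j w => Y w * t c1 j w) _ (hall c1)
  obtain ⟨σ, hσ, h2⟩ := sum_mul _ (fun j w => Y w * t c0 j w) _ (hall c0)
  have hρn : Nz ρ := by
    intro h0
    apply hi
    filter_upwards [h1, h0] with w h3 h4
    rw [hcoef, h3, h4, zero_mul]
  have hσn : Nz σ := by
    intro h0
    apply hi0
    filter_upwards [h2, h0] with w h3 h4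
    rw [hcoef, h3, h4, zero_mul]
  apply hc10
  refine ⟨fun w => ρ w / σ w, hρ.fun_div hσ, ?_⟩
  filter_upwards [h1, h2, hex' i, hY.2, mero_ne hσ hσn, ((ht c1 j0).un hj0t).2]
    with w h3 h4 h5 h6 h7 h8
  have h9 : (W c1 w).coeff i * (Y w * f w c0) - (W c0 w).coeff i * (Y w * f w c1) = 0 := h5
  rw [hcoef, hcoef, h3, h4] at h9
  have h10 : Y w * Y w * t c1 j0 w * (ρ w * f w c0 - σ w * f w c1) = 0 := by
    linear_combination h9
  have h11 : ρ w * f w c0 - σ w * f w c1 = 0 :=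
    (mul_eq_zero.mp h10).resolve_left (mul_ne_zero (mul_ne_zero h6 h6) h8)
  rw [div_mul_eq_mul_div, eq_div_iff h7]
  linear_combination -h11

end Pool.Agent.W2helper39.SP
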