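import Pool.Agent.W2helper39.SP.Exp
import Pool.Agent.W2helper39.SP.Inv
import Pool.Agent.W2helper39.SP.Loc3
import Pool.Agent.W2helper39.SB.Ent
import Pool.Agent.W2helper39.SB.Fin

/-!
The special sets of the curves of bounded complexity coincide.
-/

set_option autoImplicit false

namespace Pool.Agent.W2helper39.SP

open MvPolynomial Metric
open Filter Topology Pool.Agent.TH143 Pool.Agent.W603.BP
open Pool.Agent.W2helper39.BR (OdeAt OdeInf OdeOver LogDerOver GmQ Few gen_local2 eval_aeval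
  poly_zero coefs coefs_ring mrel_of_algOver grow_of_linSys)

variable {M m : ℕ} {ι : Type} {G : ι → MvPolynomial (Fin M) ℂ} {Q Φ : MvPolynomial (Fin M) ℂ}

theorem laurent_diff {g : ℂ → ℂ} (h : Laurent m g) : DifferentiableOn ℂ g {0}ᶜ := by
  obtain ⟨a, b, h⟩ := h
  have h1 : DifferentiableOn ℂ (fun z : ℂ => ∑ j, a j * z ^ b j) {0}ᶜ := by
    apply DifferentiableOn.fun_sum
    intro j _
    refine DifferentiableOn.const_mul ?_ _
    intro z hz
    exact (differentiableAt_zpow.mpr (Or.inl hz)).differentiableWithinAt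
  exact h1.congr fun z hz => h z hz

theorem gmQ_of_vanish (h : ∀ x ∈ SpG m G Q, aeval x Φ = 0) : GmQ m G Q Φ := by
  rintro w hw hw1 hwG hwQ ⟨t, j1, j0, ht, hnc⟩
  have h1 := h (w 1) ⟨hw1, w, ⟨?_, ⟨1, one_ne_zero, hw1⟩, fun z hz i => ?_, fun z hz => ?_⟩,
    ⟨⟨t, 1, j1, j0, ht, one_ne_zero, hnc⟩, hw⟩, 1, one_ne_zero, rfl⟩
  · rwa [aeval_eq_eval] at h1
  · intro z hz
    rw [differentiableWithinAt_pi]
    exact fun c => laurent_diff (hw c) z hz
  · rw [aeval_eq_eval]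
    exact hwG i z hz
  · rw [aeval_eq_eval]
    exact hwQ z hz

/-- Arbitrary domains, the coordinates may have common zeros. -/
theorem dom_main2 {Ω : Set ℂ} {B : Subalgebra ℂ (ℂ → ℂ)} (hΩ : IsOpen Ω) (hΩc : IsPreconnected Ω)
    (hB : DiffRing Ω B) (f : ℂ → Fin M → ℂ)
    (hf : ∀ j, AnalyticOnNhd ℂ (fun w => f w j) Ω)
    (hlin : ∀ j, OdeOver Ω B m (fun w => f w j))
    (hG : ∀ z ∈ Ω, ∀ i, eval (f z) (G i) = 0) (hQ : ∀ z ∈ Ω, eval (f z) Q ≠ 0)
    (hQd : LogDerOver Ω B fun w => eval (f w) Q) (hΦ : GmQ m G Q Φ)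
    (j1 j0 : Fin M) (h0 : ∃ z ∈ Ω, f z j0 ≠ 0)
    (h1 : ¬ AlgOver Ω B (fun w => f w j1) (fun w => f w j0)) :
    ∀ z ∈ Ω, eval (f z) Φ = 0 := by
  obtain ⟨z0, hz0, h⟩ := gen_local2 hΩ hΩc hB f hf hlin Q hQ hQd j0 j1 h0 h1
  have han : AnalyticOnNhd ℂ (fun w => eval (f w) Φ) Ω := BR.eval_an hf Φ
  have hne : ∀ᶠ z in 𝓝[≠] z0, f z j0 ≠ 0 := by
    rcases (hf j0 z0 hz0).eventually_eq_zero_or_eventually_ne_zero with h2 | h2
    · exfalso
      obtain ⟨z, hz, hz'⟩ := h0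
      exact hz' ((hf j0).eqOn_zero_of_preconnected_of_eventuallyEq_zero hΩc hz0 h2 hz)
    · exact h2
  have hev : ∀ᶠ z in 𝓝[≠] z0, eval (f z) Φ = 0 := by
    filter_upwards [h, mem_nhdsWithin_of_mem_nhds (hΩ.mem_nhds hz0), hne] with z hz hzΩ hz0
    obtain ⟨w, hw1, hw2, hw3, ⟨t, ht, hnc⟩, hw5⟩ := hz
    have hw2' : w 1 = f z := funext hw2
    have h2 := hΦ w hw1 (by
      rw [hw2']
      exact fun h => hz0 (congrFun h j0))
      (fun i t ht => hw5 (G i) (fun x hx => hG x hx i) t ht) hw3 ⟨t, j1, j0, ht, hnc⟩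
    rwa [hw2'] at h2
  rcases (han z0 hz0).eventually_eq_zero_or_eventually_ne_zero with h2 | h2
  · exact fun z hz => han.eqOn_zero_of_preconnected_of_eventuallyEq_zero hΩc hz0 h2 hz
  · exfalso
    obtain ⟨z, h3, h4⟩ := (hev.and h2).exists
    exact h4 h3

theorem coord_data {f : ℂ → Fin M → ℂ} (hf : Coord G Q (ball 0 1 \ {0}) f) :
    (∀ j, AnalyticOnNhd ℂ (fun w => f w j) (PB 1)) ∧
    (∀ z ∈ PB 1, ∀ i, eval (f z) (G i) = 0) ∧ ∀ z ∈ PB 1, eval (f z) Q ≠ 0 := by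
  refine ⟨fun j w hw => ?_, fun z hz i => ?_, fun z hz => ?_⟩
  · have h1 : DifferentiableOn ℂ (fun w => f w j) (ball 0 1 \ {0}) := fun z hz =>
      (differentiableWithinAt_pi.mp (hf.hol z hz)) j
    exact h1.analyticAt ((isOpen_ball.sdiff isClosed_singleton).mem_nhds (mem_disc.mpr hw))
  · have h1 := hf.mem z (mem_disc.mpr hz) i
    rwa [aeval_eq_eval] at h1
  · have h1 := hf.off z (mem_disc.mpr hz)
    rwa [aeval_eq_eval] at h1

/-- **Punctured discs, differential equations.** -/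
theorem pun_ode {f : ℂ → Fin M → ℂ} (hf : Coord G Q (ball 0 1 \ {0}) f) (hess : Ess f)
    (hode : ∀ c, OdeAt m fun z => f z c) (hΦ : GmQ m G Q Φ) : ∀ z ∈ PB 1, eval (f z) Φ = 0 := by
  classical
  obtain ⟨hfa, hfG, hfQ⟩ := coord_data hf
  obtain ⟨j1, j0, hj0, hj1⟩ := hess
  have hj0' : Nz fun w => f w j0 := hj0
  have hlin : LinSys f := linSys_of_linODE f one_pos hfa fun j => (hode j).linODE
  have hqan : AnalyticOnNhd ℂ (fun w => eval (f w) Q) (PB 1) := BR.eval_an hfa Q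
  obtain ⟨C', K', hC', hgrQ⟩ := Grow.eval (grow_of_linSys hlin) Q
  obtain ⟨b, hb, hbd⟩ := logderiv_mero hqan hfQ hC' hgrQ
  choose δ0 hδ0 hδ0' using fun j => (hode j).over
  obtain ⟨δ1, hδ1, hall⟩ := ev_iff.mp (hbd.and (Pun.mero hb))
  have : Nonempty (Fin M) := ⟨j0⟩
  obtain ⟨δ2, hδ2, hδ2'⟩ : ∃ δ2 > 0, ∀ j, δ2 ≤ δ0 j :=
    ⟨Finset.univ.inf' Finset.univ_nonempty δ0, by
      rw [gt_iff_lt, Finset.lt_inf'_iff]
      exact fun j _ => hδ0 j, fun j => Finset.inf'_le _ (Finset.mem_univ j)⟩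
  set δ := min (min δ1 δ2) 1 with hδ
  have hδpos : 0 < δ := by positivity
  have hδ1' : PB δ ⊆ PB 1 := PB_mono (min_le_right _ _)
  have hδd : PB δ ⊆ PB δ1 := PB_mono ((min_le_left _ _).trans (min_le_left _ _))
  have h := dom_main2 (G := G) (Q := Q) (Φ := Φ) (PB_open δ) (PB_preconn hδpos) (coefs_ring δ) f
    (fun j => (hfa j).mono hδ1')
    (fun j => hδ0' j δ hδpos (((min_le_left _ _).trans (min_le_right _ _)).trans (hδ2' j)))
    (fun z hz => hfG z (hδ1' hz)) (fun z hz => hfQ z (hδ1' hz))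
    ⟨1, Subalgebra.one_mem _, b, ⟨fun w hw => (hall w (hδd hw)).2, hb⟩, by
      obtain ⟨z, hz⟩ := PB_nonempty hδpos
      exact ⟨z, hz, by simp⟩, fun z hz => by
      rw [(hall z (hδd hz)).1.deriv]
      simp⟩ hΦ j1 j0 (by
      obtain ⟨w, hw, hw'⟩ := nz_on hδpos hj0'
      exact ⟨w, hw, hw'⟩) (fun halg => hj1
        (mrel_of_algOver hδpos (on_pun one_pos (hfa j1)) (on_pun one_pos (hfa j0)) hj0' halg))
  exact eq_zero_on one_pos (BR.eval_an hfa Φ) (ev_iff.mpr ⟨δ, hδpos, h⟩)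

theorem noZeros_zu {t : ℂ → ℂ} (ht : DifferentiableOn ℂ t (ball 0 1 \ {0})) (h : NoZeros t) :
    SB.ZU t := by
  refine ⟨?_, ?_⟩
  · apply on_pun one_pos
    intro w hw
    exact ht.analyticAt ((isOpen_ball.sdiff isClosed_singleton).mem_nhds (mem_disc.mpr hw))
  · rcases h with h | ⟨r, hr, h⟩
    · left
      filter_upwards [PB_mem one_pos] with w hw
      exact h w (mem_disc.mpr hw)
    · right
      filter_upwards [PB_mem hr] with w hw
      exact h w hw.1 hw.2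

/-- **Punctured discs, sums of functions without zeros.** -/
theorem pun_sum [Finite ι] {f : ℂ → Fin M → ℂ} (hf : Coord G Q (ball 0 1 \ {0}) f) (hess : Ess f)
    (hsum : ∀ c, SumOn m (ball 0 1 \ {0}) NoZeros fun z => f z c)
    (hGh : ∀ i, ∃ d, (G i).IsHomogeneous d) (hQh : ∃ d, Q.IsHomogeneous d)
    (hΦh : ∃ d, Φ.IsHomogeneous d) (hΦ : GmQ m G Q Φ) : ∀ z ∈ PB 1, eval (f z) Φ = 0 := by
  classical
  obtain ⟨hfa, hfG, hfQ⟩ := coord_data hf
  rcases M with _ | n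
  · obtain ⟨c, -⟩ := hess
    exact c.elim0
  choose t ht hft using hsum
  obtain ⟨b, Y, hY, hmain⟩ := loc_main2 f hfa t (fun c j => noZeros_zu (ht c j).1 (ht c j).2)
    (by
      filter_upwards [PB_mem one_pos] with w hw c
      exact hft c w (mem_disc.mpr hw)) hess
  let W : Fin (n + 1) → ℂ → Polynomial ℂ := fun c w =>
    ∑ j, Polynomial.C (Y w * t c j w) * Polynomial.X ^ b c j
  obtain ⟨hW1, hrel, havoid, c1, c0, δ0, hδ0P, hδ0N, hnc⟩ := hmain W fun c w => rfl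
  have hPB : ∀ᶠ w in 𝓝[≠] (0 : ℂ), w ∈ PB 1 := PB_mem one_pos
  have hval : ∀ᶠ w in 𝓝[≠] (0 : ℂ), ∀ (H : MvPolynomial (Fin (n + 1)) ℂ) (k : ℕ),
      H.IsHomogeneous k → aeval (fun c => (W c w).eval 1) H = Y w ^ k * aeval (f w) H := by
    filter_upwards [hW1] with w h1 H k hH
    rw [← SB.form_smul hH]
    congr 2
    funext c
    exact h1 c
  obtain ⟨eQ, heQ⟩ := hQh
  obtain ⟨eΦ, heΦ⟩ := hΦh
  -- relations
  have hG : ∀ᶠ w in 𝓝[≠] (0 : ℂ), ∀ i, aeval (fun c => W c w) (G i) = 0 := by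
    rw [Filter.eventually_all]
    intro i
    obtain ⟨d, hd⟩ := hGh i
    apply hrel
    filter_upwards [hval, hPB] with w h1 h2
    rw [h1 _ _ hd, aeval_eq_eval, hfG w h2 i, mul_zero]
  -- the boundary
  obtain ⟨δ1, hδ1P, hδ1N, hδ1⟩ := havoid 1 (fun _ => Q) (by
    filter_upwards [hval, hPB, hY.2] with z h1 h2 h3
    refine ⟨0, ?_⟩
    rw [h1 _ _ heQ, aeval_eq_eval]
    exact mul_ne_zero (pow_ne_zero _ h3) (hfQ z h2))
  let δ : ℂ → ℂ := fun z => δ0 z * δ1 z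
  have hδP : Pun δ := hδ0P.mul hδ1P
  have hδN : Nz δ := Nz.mul hδ0P hδ1P hδ0N hδ1N
  have hfP : ∀ c, Pun fun w => f w c := fun c => on_pun one_pos (hfa c)
  have hzero : ∀ᶠ z in 𝓝[≠] (0 : ℂ), aeval (f z) Φ * δ z = 0 := by
    filter_upwards [hG, hδ1, hnc, hval, hY.2] with z h1 h2 h4 h5 h6
    by_cases h0 : δ z = 0
    · rw [h0, mul_zero]
    have h7 : δ0 z ≠ 0 := left_ne_zero_of_mul h0
    have h8 : δ1 z ≠ 0 := right_ne_zero_of_mul h0
    have h10 : eval (fun c => (W c z).eval 1) Φ = 0 := by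
      refine hΦ (fun t c => (W c z).eval t) (fun c => ⟨fun j => Y z * t c j z,
        fun j => (b c j : ℤ), fun t _ => ?_⟩) ?_ (fun i t _ => ?_) (fun t ht => ?_) ?_
      · simp only [W, Polynomial.eval_finsetSum, Polynomial.eval_mul, Polynomial.eval_C,
          Polynomial.eval_pow, Polynomial.eval_X, zpow_natCast]
      · intro h11
        apply h4 h7
        rw [show (W c0 z).eval 1 = 0 from congrFun h11 c0,
          show (W c1 z).eval 1 = 0 from congrFun h11 c1]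
        simp
      · rw [← eval_aeval, h1 i, Polynomial.eval_zero]
      · obtain ⟨-, h12⟩ := h2 h8 t ht
        rwa [eval_aeval] at h12
      · by_contra hcon
        push Not at hcon
        apply h4 h7
        rw [← sub_eq_zero]
        apply poly_zero
        intro t ht
        have h12 := hcon t c1 c0 ht
        simp only [Polynomial.eval_sub, Polynomial.eval_mul, Polynomial.eval_C]
        rw [h12, sub_self]
    have h11 := h5 _ _ heΦ
    rw [aeval_eq_eval, aeval_eq_eval] at h11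
    have h12 : Y z ^ eΦ * eval (f z) Φ = 0 := by
      rw [← h11]
      exact h10
    rw [aeval_eq_eval]
    have h13 : eval (f z) Φ = 0 := (mul_eq_zero.mp h12).resolve_left (pow_ne_zero _ h6)
    change eval (f z) Φ * δ z = 0
    rw [h13, zero_mul]
  have h1 := (pun_mul_zero (SB.pun_form hfP Φ) hδP hzero).resolve_right hδN
  simp only [aeval_eq_eval] at h1
  exact eq_zero_on one_pos (BR.eval_an hfa Φ) h1

/-- the sets in which the forms vanish -/
theorem vanish_pOde (hΦ : ∀ x ∈ SpG m G Q, aeval x Φ = 0) : ∀ x ∈ SpPOde m G Q, aeval x Φ = 0 := by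
  rintro x ⟨-, f, hf, ⟨hess, hode⟩, z, hz, rfl⟩
  rw [aeval_eq_eval]
  exact pun_ode hf hess hode (gmQ_of_vanish hΦ) z (mem_disc.mp hz)

theorem vanish_pSum [Finite ι] (hGh : ∀ i, ∃ d, (G i).IsHomogeneous d)
    (hQh : ∃ d, Q.IsHomogeneous d) (hΦh : ∃ d, Φ.IsHomogeneous d)
    (hΦ : ∀ x ∈ SpG m G Q, aeval x Φ = 0) : ∀ x ∈ SpPSum m G Q, aeval x Φ = 0 := by
  rintro x ⟨-, f, hf, ⟨hess, hsum⟩, z, hz, rfl⟩
  rw [aeval_eq_eval]
  exact pun_sum hf hess hsum hGh hQh hΦh (gmQ_of_vanish hΦ) z (mem_disc.mp hz)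

theorem coord_inv {f : ℂ → Fin M → ℂ} (hf : Coord G Q Set.univ f) :
    Coord G Q (ball 0 1 \ {0}) fun w => f w⁻¹ := by
  have hd : Differentiable ℂ f := fun z =>
    (hf.hol z (Set.mem_univ z)).differentiableAt Filter.univ_mem
  refine ⟨fun z hz => ?_, ?_, fun z _ => hf.mem _ (Set.mem_univ _),
    fun z _ => hf.off _ (Set.mem_univ _)⟩
  · exact ((hd _).comp z (differentiableAt_inv hz.2)).differentiableWithinAt
  · by_contra hcon
    push Not at hcon
    obtain ⟨z, -, hz⟩ := hf.ne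
    apply hz
    funext c
    refine SB.zero_of_inv (fun z => (differentiableAt_pi.mp (hd z)) c) ?_ z
    filter_upwards [PB_mem one_pos] with w hw
    exact congrFun (hcon w (mem_disc.mpr hw)) c

theorem vanish_inv {f : ℂ → Fin M → ℂ} (hf : Coord G Q Set.univ f)
    (h : ∀ w ∈ ball (0 : ℂ) 1 \ {0}, aeval (f w⁻¹) Φ = 0) (z : ℂ) : aeval (f z) Φ = 0 := by
  have hd : Differentiable ℂ f := fun z =>
    (hf.hol z (Set.mem_univ z)).differentiableAt Filter.univ_mem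
  have h1 : Differentiable ℂ fun z => aeval (f z) Φ := by
    have h2 : (fun w => aeval (f w) Φ) = fun w => ∑ α ∈ Φ.support, Φ.coeff α *
        ∏ j, f w j ^ α j := by
      funext w
      rw [aeval_eq_eval, eval_eq']
    rw [h2]
    have h3 : ∀ j, Differentiable ℂ fun z => f z j := fun j z => (differentiableAt_pi.mp (hd z)) j
    exact Differentiable.fun_sum fun α _ => (Differentiable.fun_finsetProd fun j _ =>
      (h3 j).fun_pow _).const_mul _
  refine SB.zero_of_inv h1 ?_ z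
  filter_upwards [PB_mem one_pos] with w hw
  exact h w (mem_disc.mpr hw)

theorem vanish_hOde (hΦ : ∀ x ∈ SpG m G Q, aeval x Φ = 0) :
    ∀ x ∈ SpHOde m G Q, aeval x Φ = 0 := by
  rintro x ⟨-, f, hf, ⟨hess, hode⟩, z, hz, rfl⟩
  have hd : Differentiable ℂ f := fun z =>
    (hf.hol z (Set.mem_univ z)).differentiableAt Filter.univ_mem
  have hdc : ∀ c, Differentiable ℂ fun z => f z c := fun c z => (differentiableAt_pi.mp (hd z)) c
  have h1 : ∀ c, OdeAt m fun w => f w⁻¹ c := fun c =>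
    odeInf_inv (g := fun z => f z c) (hdc c) (hode c)
  refine vanish_inv hf (fun w hw => ?_) z
  rw [aeval_eq_eval]
  exact pun_ode (f := fun w => f w⁻¹) (coord_inv hf) hess h1 (gmQ_of_vanish hΦ) w (mem_disc.mp hw)

theorem vanish_hSum [Finite ι] (hGh : ∀ i, ∃ d, (G i).IsHomogeneous d)
    (hQh : ∃ d, Q.IsHomogeneous d) (hΦh : ∃ d, Φ.IsHomogeneous d)
    (hΦ : ∀ x ∈ SpG m G Q, aeval x Φ = 0) : ∀ x ∈ SpHSum m G Q, aeval x Φ = 0 := by
  rintro x ⟨-, f, hf, ⟨hess, hsum⟩, z, hz, rfl⟩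
  refine vanish_inv hf (fun w hw => ?_) z
  rw [aeval_eq_eval]
  refine pun_sum (coord_inv hf) hess (fun c => ?_) hGh hQh hΦh (gmQ_of_vanish hΦ) w
    (mem_disc.mp hw)
  obtain ⟨t, ht, hft⟩ := hsum c
  have htd : ∀ j, Differentiable ℂ (t j) := fun j z =>
    ((ht j).1 z (Set.mem_univ z)).differentiableAt Filter.univ_mem
  refine ⟨fun j w => t j w⁻¹, fun j => ⟨fun z hz =>
    ((htd j _).comp z (differentiableAt_inv hz.2)).differentiableWithinAt, ?_⟩,
    fun z _ => hft _ (Set.mem_univ _)⟩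
  rcases (ht j).2 with h1 | h1
  · exact Or.inl fun z _ => h1 _
  · right
    obtain ⟨R, hR⟩ := h1.isBounded.exists_norm_le
    refine ⟨(|R| + 1)⁻¹, by positivity, fun z hz hzr h2 => ?_⟩
    have h3 : ‖z⁻¹‖ ≤ R := hR _ h2
    rw [norm_inv] at h3
    have h4 : 0 < ‖z‖ := norm_pos_iff.mpr hz
    have h5 : |R| + 1 < ‖z‖⁻¹ := by
      rw [lt_inv_comm₀ (by positivity) h4]
      exact hzr
    linarith [le_abs_self R]

theorem spG_sub_pOde : SpG m G Q ⊆ SpPOde m G Q := by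
  rintro x ⟨hx, w, hw, ⟨hnc, hL⟩, z, hz, hxz⟩
  obtain ⟨ζ, hζ, hζz⟩ := exists_exp_inv hz one_pos
  have hd : ∀ c, Differentiable ℂ fun z => w (Complex.exp z) c := fun c z =>
    (differentiableAt_pi.mp (((coord_exp hw).hol z (Set.mem_univ z)).differentiableAt
      Filter.univ_mem)) c
  have h1 : ∀ c, OdeAt m fun ζ => w (Complex.exp ζ⁻¹) c := by
    intro c
    obtain ⟨a, b, hab⟩ := laurent_exp (hL c)
    exact odeInf_inv (g := fun z => w (Complex.exp z) c) (hd c) (expsum_ode a b hab)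
  refine ⟨hx, fun ζ => w (Complex.exp ζ⁻¹), coord_inv (coord_exp hw), ⟨ess_exp hnc, h1⟩,
    ζ, mem_disc.mpr hζ, ?_⟩
  · rw [hxz]
    simp only
    rw [hζz]

theorem spG_sub_pSum : SpG m G Q ⊆ SpPSum m G Q := by
  rintro x ⟨hx, w, hw, ⟨hnc, hL⟩, z, hz, hxz⟩
  obtain ⟨ζ, hζ, hζz⟩ := exists_exp_inv hz one_pos
  refine ⟨hx, fun ζ => w (Complex.exp ζ⁻¹), coord_inv (coord_exp hw), ⟨ess_exp hnc, fun c => ?_⟩,
    ζ, mem_disc.mpr hζ, ?_⟩
  · obtain ⟨a, b, hab⟩ := laurent_exp (hL c)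
    refine ⟨fun j z => a j * Complex.exp (b j * z⁻¹), fun j => ⟨fun z hz => ?_, ?_⟩,
      fun z _ => hab z⁻¹⟩
    · exact ((((differentiableAt_inv hz.2).const_mul _).cexp).const_mul _).differentiableWithinAt
    · by_cases ha : a j = 0
      · left
        intro z _
        simp only [ha, zero_mul]
      · right
        exact ⟨1, one_pos, fun z _ _ => mul_ne_zero ha (Complex.exp_ne_zero _)⟩
  · rw [hxz]
    simp only
    rw [hζz]

theorem cl_eq {A : Set (Fin M → ℂ)} (h1 : SpG m G Q ⊆ A)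
    (h2 : ∀ Φ : MvPolynomial (Fin M) ℂ, (∃ d, Φ.IsHomogeneous d) →
      (∀ x ∈ SpG m G Q, aeval x Φ = 0) → ∀ x ∈ A, aeval x Φ = 0) :
    Cl G Q A = Cl G Q (SpG m G Q) := by
  apply Set.Subset.antisymm
  · rintro x ⟨hx, h⟩
    exact ⟨hx, fun F hF hv => h F hF (h2 F hF hv)⟩
  · rintro x ⟨hx, h⟩
    exact ⟨hx, fun F hF hv => h F hF fun y hy => hv y (h1 hy)⟩

/-- **The special sets coincide.** -/
theorem special [Finite ι] (hGh : ∀ i, ∃ d, (G i).IsHomogeneous d)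
    (hQh : ∃ d, Q.IsHomogeneous d) :
    Cl G Q (SpPOde m G Q) = Cl G Q (SpG m G Q) ∧ Cl G Q (SpHOde m G Q) = Cl G Q (SpG m G Q) ∧
    Cl G Q (SpPSum m G Q) = Cl G Q (SpG m G Q) ∧ Cl G Q (SpHSum m G Q) = Cl G Q (SpG m G Q) :=
  ⟨cl_eq spG_sub_pOde fun _ _ h => vanish_pOde h,
    cl_eq (spG_sub_hOde m) fun _ _ h => vanish_hOde h,
    cl_eq spG_sub_pSum fun _ hF h => vanish_pSum hGh hQh hF h,
    cl_eq (spG_sub_hSum m) fun _ hF h => vanish_hSum hGh hQh hF h⟩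

/-- the form vanishes on the special set -/
theorem vanish_of_gmQ (hΦ : GmQ m G Q Φ) : ∀ x ∈ SpG m G Q, aeval x Φ = 0 := by
  rintro x ⟨hx, w, hw, ⟨⟨z1, z2, c, c', hz1, hz2, hnc⟩, hL⟩, z, hz, rfl⟩
  have hz0 : z ≠ 0 := hz
  rw [aeval_eq_eval]
  have h := hΦ (fun t => w (z * t)) (fun c => ?_) (by simpa using hx)
    (fun i t ht => by
      have := hw.mem (z * t) (mul_ne_zero hz ht) i
      rwa [aeval_eq_eval] at this) (fun t ht => by
      have := hw.off (z * t) (mul_ne_zero hz ht)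
      rwa [aeval_eq_eval] at this) ?_
  · simpa using h
  · obtain ⟨a, b, hab⟩ := hL c
    have hab' : ∀ z, z ≠ 0 → w z c = ∑ j, a j * z ^ b j := hab
    refine ⟨fun j => a j * z ^ b j, b, fun t ht => ?_⟩
    simp only
    rw [hab' _ (mul_ne_zero hz0 ht)]
    refine Finset.sum_congr rfl fun j _ => ?_
    rw [mul_zpow]
    ring
  · by_contra hcon
    push Not at hcon
    simp only [mul_one] at hcon
    obtain ⟨k, hk⟩ := Function.ne_iff.mp hx
    have hk' : w z k ≠ 0 := hk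
    have h1 : ∀ s j, s ≠ 0 → w s j * w z k = w s k * w z j := by
      intro s j hs
      have h2 := hcon (z⁻¹ * s) j k (mul_ne_zero (inv_ne_zero hz) hs)
      rw [mul_inv_cancel_left₀ hz] at h2
      exact h2
    apply hnc
    have h3 := h1 z1 c hz1
    have h4 := h1 z1 c' hz1
    have h5 := h1 z2 c hz2
    have h6 := h1 z2 c' hz2
    apply mul_right_cancel₀ (mul_ne_zero hk' hk')
    linear_combination w z2 c' * w z k * h3 + w z1 k * w z c * h6 - w z2 c * w z k * h4 -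
      w z1 k * w z c' * h5

end Pool.Agent.W2helper39.SP
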