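import Pool.Agent.W2helper39.BR.Defs

/-!
The special sets of a quasi-projective variety which are swept out by the curves of bounded
complexity: the definitions.
-/

set_option autoImplicit false

namespace Pool.Agent.W2helper39.SP

open Filter Topology MvPolynomial Metric
open Pool.Agent.W2helper39.BR (OdeAt OdeInf)

variable {M : ℕ} {ι : Type}

/-- The points of the quasi-projective variety `U` with the equations `G i = 0` and `Q ≠ 0`. -/
def Pts (G : ι → MvPolynomial (Fin M) ℂ) (Q : MvPolynomial (Fin M) ℂ) : Set (Fin M → ℂ) :=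
  {x | x ≠ 0 ∧ (∀ i, aeval x (G i) = 0) ∧ aeval x Q ≠ 0}

/-- The Zariski closure in `U` of a set of points. -/
def Cl (G : ι → MvPolynomial (Fin M) ℂ) (Q : MvPolynomial (Fin M) ℂ) (A : Set (Fin M → ℂ)) :
    Set (Fin M → ℂ) :=
  {x | x ∈ Pts G Q ∧ ∀ F : MvPolynomial (Fin M) ℂ, (∃ d, F.IsHomogeneous d) →
    (∀ y ∈ A, aeval y F = 0) → aeval x F = 0}

/-- `f` is a vector of homogeneous coordinates of a holomorphic map from the open connected set `S`
to `U`; isolated common zeros of the coordinates are possible if `Q` is a constant. -/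
structure Coord (G : ι → MvPolynomial (Fin M) ℂ) (Q : MvPolynomial (Fin M) ℂ) (S : Set ℂ)
    (f : ℂ → Fin M → ℂ) : Prop where
  hol : DifferentiableOn ℂ f S
  ne : ∃ z ∈ S, f z ≠ 0
  mem : ∀ z ∈ S, ∀ i, aeval (f z) (G i) = 0
  off : ∀ z ∈ S, aeval (f z) Q ≠ 0

/-- The union of the images of the maps from `S` with the property `P`. -/
def Swept (G : ι → MvPolynomial (Fin M) ℂ) (Q : MvPolynomial (Fin M) ℂ) (S : Set ℂ)
    (P : (ℂ → Fin M → ℂ) → Prop) : Set (Fin M → ℂ) :=
  {x | x ≠ 0 ∧ ∃ f, Coord G Q S f ∧ P f ∧ ∃ z ∈ S, x = f z}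

/-- The map has an essential singularity at the origin: some quotient of its coordinates is not
meromorphic there. -/
def Ess (f : ℂ → Fin M → ℂ) : Prop :=
  ∃ c c', (¬ ∀ᶠ z in 𝓝[≠] (0 : ℂ), f z c' = 0) ∧
    ¬ ∃ ρ : ℂ → ℂ, MeromorphicAt ρ 0 ∧ ∀ᶠ z in 𝓝[≠] (0 : ℂ), f z c = ρ z * f z c'

/-- `g` is on `S` the sum of `m` holomorphic functions with the property `P`. -/
def SumOn (m : ℕ) (S : Set ℂ) (P : (ℂ → ℂ) → Prop) (g : ℂ → ℂ) : Prop :=
  ∃ t : Fin m → ℂ → ℂ, (∀ j, DifferentiableOn ℂ (t j) S ∧ P (t j)) ∧ ∀ z ∈ S, g z = ∑ j, t j z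

/-- The function is zero on the punctured disc or its zeros do not accumulate at the puncture. -/
def NoZeros (t : ℂ → ℂ) : Prop :=
  (∀ z ∈ ball (0 : ℂ) 1 \ {0}, t z = 0) ∨ ∃ r : ℝ, 0 < r ∧ ∀ z : ℂ, z ≠ 0 → ‖z‖ < r → t z ≠ 0

/-- `g` is a Laurent polynomial with at most `m` monomials. -/
def Laurent (m : ℕ) (g : ℂ → ℂ) : Prop :=
  ∃ (a : Fin m → ℂ) (b : Fin m → ℤ), ∀ z, z ≠ 0 → g z = ∑ j, a j * z ^ b j

/-- The map is not constant. -/
def NonConst (f : ℂ → Fin M → ℂ) : Prop :=
  ∃ z z' c c', z ≠ 0 ∧ z' ≠ 0 ∧ f z c * f z' c' ≠ f z c' * f z' c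

/-- The five special sets. The images of the nonconstant maps from the multiplicative group given by
Laurent polynomials with at most `m` monomials. -/
def SpG (m : ℕ) (G : ι → MvPolynomial (Fin M) ℂ) (Q : MvPolynomial (Fin M) ℂ) :
    Set (Fin M → ℂ) :=
  Swept G Q {0}ᶜ fun f => NonConst f ∧ ∀ c, Laurent m fun z => f z c

/-- The images of the maps from the punctured disc with an essential singularity whose coordinates
are sums of `m` functions without zeros near the puncture. -/
def SpPSum (m : ℕ) (G : ι → MvPolynomial (Fin M) ℂ) (Q : MvPolynomial (Fin M) ℂ) :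
    Set (Fin M → ℂ) :=
  Swept G Q (ball 0 1 \ {0}) fun f => Ess f ∧ ∀ c, SumOn m (ball 0 1 \ {0}) NoZeros fun z => f z c

/-- The images of the transcendental entire curves whose coordinates are sums of `m` functions with
finitely many zeros. -/
def SpHSum (m : ℕ) (G : ι → MvPolynomial (Fin M) ℂ) (Q : MvPolynomial (Fin M) ℂ) :
    Set (Fin M → ℂ) :=
  Swept G Q Set.univ fun f => Ess (fun w => f w⁻¹) ∧
    ∀ c, SumOn m Set.univ (fun t => (∀ z, t z = 0) ∨ {z | t z = 0}.Finite) fun z => f z c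

/-- The images of the maps from the punctured disc with an essential singularity whose coordinates
satisfy linear differential equations of order at most `m` with coefficients meromorphic at the
puncture. -/
def SpPOde (m : ℕ) (G : ι → MvPolynomial (Fin M) ℂ) (Q : MvPolynomial (Fin M) ℂ) :
    Set (Fin M → ℂ) :=
  Swept G Q (ball 0 1 \ {0}) fun f => Ess f ∧ ∀ c, OdeAt m fun z => f z c

/-- The images of the transcendental entire curves whose coordinates satisfy linear differential
equations of order at most `m` with coefficients meromorphic at infinity. -/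
def SpHOde (m : ℕ) (G : ι → MvPolynomial (Fin M) ℂ) (Q : MvPolynomial (Fin M) ℂ) :
    Set (Fin M → ℂ) :=
  Swept G Q Set.univ fun f => Ess (fun w => f w⁻¹) ∧ ∀ c, OdeInf m fun z => f z c

end Pool.Agent.W2helper39.SP
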