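import Pool.Agent.W2helper39.SP.Defs
import Pool.Agent.TH143.Conv

/-!
Maps from the multiplicative group composed with the exponential function.
-/

set_option autoImplicit false

namespace Pool.Agent.W2helper39.SP

open Filter Topology Pool.Agent.W603.BP MvPolynomial
open Pool.Agent.W2helper39.BR (OdeAt OdeInf)

theorem freq_exp {t : ℂ} (ht : t ≠ 0) : ∃ᶠ w in 𝓝[≠] (0 : ℂ), Complex.exp w⁻¹ = t := by
  intro h
  obtain ⟨δ, hδ, hall⟩ := ev_iff.mp h
  obtain ⟨w, hw, hwt⟩ := Pool.Agent.TH143.exists_exp_inv ht hδ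
  exact hall w hw hwt

/-- functions of the exponential whose quotient is meromorphic are proportional -/
theorem exp_prop {u v : ℂ → ℂ} {t : ℂ} (ht : t ≠ 0) (hv : v t ≠ 0)
    (h : MRel (fun ζ => u (Complex.exp ζ⁻¹)) fun ζ => v (Complex.exp ζ⁻¹)) (s : ℂ) (hs : s ≠ 0) :
    u s * v t = u t * v s := by
  obtain ⟨ρ, hρ, h1⟩ := h
  have h2 : MeromorphicAt (fun ζ => ρ ζ - u t / v t) 0 := hρ.fun_sub (MeromorphicAt.const _ 0)
  have h3 : ∀ᶠ ζ in 𝓝[≠] (0 : ℂ), ρ ζ - u t / v t = 0 := by
    rcases h2.eventually_eq_zero_or_eventually_ne_zero with h | h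
    · exact h
    · exfalso
      obtain ⟨ζ, h4, h5, h6⟩ := ((freq_exp ht).and_eventually (h1.and h)).exists
      simp only [h4] at h5
      apply h6
      rw [h5]
      field_simp
      ring
  obtain ⟨ζ, h4, h5, h6⟩ := ((freq_exp hs).and_eventually (h1.and h3)).exists
  simp only [h4] at h5
  rw [h5, sub_eq_zero.mp h6]
  field_simp

theorem ess_exp {M : ℕ} {w : ℂ → Fin M → ℂ} (h : NonConst w) :
    Ess fun ζ => w (Complex.exp ζ⁻¹) := by
  have key : ∀ z z' c c', z ≠ 0 → z' ≠ 0 → w z c * w z' c' ≠ w z c' * w z' c →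
      w z' c' ≠ 0 → Ess fun ζ => w (Complex.exp ζ⁻¹) := by
    intro z z' c c' hz hz' hne hc'
    refine ⟨c, c', fun h0 => ?_, fun h0 => ?_⟩
    · obtain ⟨ζ, h1, h2⟩ := ((freq_exp hz').and_eventually h0).exists
      simp only [h1] at h2
      exact hc' h2
    · have h1 := exp_prop (u := fun t => w t c) (v := fun t => w t c') hz' hc' h0 z hz
      apply hne
      rw [h1, mul_comm]
  obtain ⟨z, z', c, c', hz, hz', hne⟩ := h
  by_cases hc' : w z' c' = 0
  · refine key z z' c' c hz hz' (Ne.symm hne) ?_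
    intro h0
    apply hne
    rw [hc', h0, mul_zero, mul_zero]
  · exact key z z' c c' hz hz' hne hc'

/-- the exponential form -/
theorem laurent_exp {m : ℕ} {g : ℂ → ℂ} (h : Laurent m g) :
    ∃ (a : Fin m → ℂ) (b : Fin m → ℤ), ∀ z, g (Complex.exp z) =
      ∑ j, a j * Complex.exp (b j * z) := by
  obtain ⟨a, b, h⟩ := h
  refine ⟨a, b, fun z => ?_⟩
  rw [h _ (Complex.exp_ne_zero z)]
  refine Finset.sum_congr rfl fun j _ => ?_
  rw [Complex.exp_int_mul]

theorem expsum_ode {m : ℕ} (a : Fin m → ℂ) (b : Fin m → ℤ) {g : ℂ → ℂ}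
    (hg : ∀ z, g z = ∑ j, a j * Complex.exp (b j * z)) : OdeInf m g := by
  classical
  let P : Polynomial ℂ := ∏ p, (Polynomial.X - Polynomial.C (b p : ℂ))
  have hdeg : P.natDegree = m := by
    rw [Polynomial.natDegree_prod_of_monic _ _ fun p _ => Polynomial.monic_X_sub_C _]
    simp only [Polynomial.natDegree_X_sub_C, Finset.sum_const, Finset.card_univ,
      Fintype.card_fin, smul_eq_mul, mul_one]
  have hmon : P.Monic := Polynomial.monic_prod_of_monic _ _ fun p _ => Polynomial.monic_X_sub_C _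
  have hroot : ∀ p, P.eval (b p : ℂ) = 0 := by
    intro p
    simp only [P, Polynomial.eval_prod]
    apply Finset.prod_eq_zero (Finset.mem_univ p)
    simp
  have hit : ∀ k z, iteratedDeriv k g z = ∑ j, a j * ((b j : ℂ) ^ k * Complex.exp (b j * z)) := by
    intro k
    induction k with
    | zero =>
      intro z
      rw [iteratedDeriv_zero, hg]
      simp
    | succ k ih =>
      intro z
      have h1 : iteratedDeriv k g = fun z => ∑ j, a j * ((b j : ℂ) ^ k * Complex.exp (b j * z)) :=
        funext ih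
      rw [iteratedDeriv_succ, h1]
      have h2 : HasDerivAt (fun z => ∑ j, a j * ((b j : ℂ) ^ k * Complex.exp (b j * z)))
          (∑ j, a j * ((b j : ℂ) ^ k * (Complex.exp (b j * z) * (b j : ℂ)))) z := by
        apply HasDerivAt.fun_sum
        intro j _
        have h3 : HasDerivAt (fun z : ℂ => Complex.exp (b j * z))
            (Complex.exp (b j * z) * (b j : ℂ)) z := by
          have := ((hasDerivAt_id z).const_mul (b j : ℂ)).cexp
          simpa using this
        exact (h3.const_mul _).const_mul _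
      rw [h2.deriv]
      refine Finset.sum_congr rfl fun j _ => ?_
      ring
  refine ⟨fun k _ => P.coeff k, fun k => MeromorphicAt.const _ 0, ⟨m, le_rfl, fun h => ?_⟩, ?_⟩
  · obtain ⟨w, hw⟩ := h.exists
    have h1 : P.coeff m = 1 := by
      have h2 := hmon.coeff_natDegree
      rwa [hdeg] at h2
    simp only [h1] at hw
    exact one_ne_zero hw
  · refine Eventually.of_forall fun w => ?_
    simp only [hit, Finset.mul_sum]
    rw [Finset.sum_comm]
    apply Finset.sum_eq_zero
    intro j _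
    have h1 : ∑ k ∈ Finset.range (m + 1), P.coeff k *
        (a j * ((b j : ℂ) ^ k * Complex.exp (b j * w⁻¹))) =
        P.eval (b j : ℂ) * (a j * Complex.exp (b j * w⁻¹)) := by
      rw [Polynomial.eval_eq_sum_range, hdeg, Finset.sum_mul]
      refine Finset.sum_congr rfl fun k _ => ?_
      ring
    rw [h1, hroot, zero_mul]

variable {M : ℕ} {ι : Type} {G : ι → MvPolynomial (Fin M) ℂ} {Q : MvPolynomial (Fin M) ℂ}

theorem coord_exp {w : ℂ → Fin M → ℂ} (h : Coord G Q {0}ᶜ w) :
    Coord G Q Set.univ fun z => w (Complex.exp z) := by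
  refine ⟨?_, ?_, fun z _ => h.mem _ (Complex.exp_ne_zero z),
    fun z _ => h.off _ (Complex.exp_ne_zero z)⟩
  · intro z _
    have h1 : DifferentiableAt ℂ w (Complex.exp z) :=
      (h.hol _ (Complex.exp_ne_zero z)).differentiableAt
        (isOpen_compl_singleton.mem_nhds (Complex.exp_ne_zero z))
    exact (h1.comp z Complex.differentiableAt_exp).differentiableWithinAt
  · obtain ⟨z, hz, hz'⟩ := h.ne
    refine ⟨Complex.log z, Set.mem_univ _, ?_⟩
    rw [Complex.exp_log hz]
    exact hz'

theorem spG_sub_hOde (m : ℕ) : SpG m G Q ⊆ SpHOde m G Q := by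
  rintro x ⟨hx, w, hw, ⟨hnc, hL⟩, z, hz, hxz⟩
  refine ⟨hx, fun z => w (Complex.exp z), coord_exp hw, ⟨ess_exp hnc, fun c => ?_⟩, Complex.log z,
    Set.mem_univ _, ?_⟩
  · obtain ⟨a, b, hab⟩ := laurent_exp (hL c)
    exact expsum_ode a b hab
  · rw [hxz]
    simp only
    rw [Complex.exp_log hz]

theorem spG_sub_hSum (m : ℕ) : SpG m G Q ⊆ SpHSum m G Q := by
  rintro x ⟨hx, w, hw, ⟨hnc, hL⟩, z, hz, hxz⟩
  refine ⟨hx, fun z => w (Complex.exp z), coord_exp hw, ⟨ess_exp hnc, fun c => ?_⟩, Complex.log z,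
    Set.mem_univ _, ?_⟩
  · obtain ⟨a, b, hab⟩ := laurent_exp (hL c)
    refine ⟨fun j z => a j * Complex.exp (b j * z), fun j => ⟨?_, ?_⟩, fun z _ => hab z⟩
    · apply Differentiable.differentiableOn
      fun_prop
    · by_cases ha : a j = 0
      · left
        intro z
        simp only [ha, zero_mul]
      · right
        have h1 : {z | a j * Complex.exp (b j * z) = 0} = ∅ := by
          ext z
          simp [ha, Complex.exp_ne_zero]
        rw [h1]
        exact Set.finite_empty
  · rw [hxz]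
    simp only
    rw [Complex.exp_log hz]

end Pool.Agent.W2helper39.SP
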